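import Pool.Agent.H508R3.AT.Stmts

set_option autoImplicit false
set_option maxHeartbeats 4000000

namespace Pool.Agent.H941R3.AT

open MeasureTheory Filter Topology Set ProbabilityTheory
open Pool.Agent.H508R3.AT Pool.Agent.H695R3.AT

/-- law of the difference -/
noncomputable def Dl (μ : Measure ℝ) : Measure ℝ := (μ.prod μ).map (fun p => p.1 - p.2)

instance {μ : Measure ℝ} [IsProbabilityMeasure μ] : IsProbabilityMeasure (Dl μ) :=
  Measure.isProbabilityMeasure_map (by fun_prop)

lemma charFun_Dl (μ : Measure ℝ) [IsProbabilityMeasure μ] (t : ℝ) :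
    charFun (Dl μ) t = ((‖charFun μ t‖ ^ 2 : ℝ) : ℂ) := by
  rw [charFun_apply_real, Dl, integral_map (by fun_prop) (by fun_prop)]
  have h1 : ∀ p : ℝ × ℝ, Complex.exp (t * ((p.1 - p.2 : ℝ) : ℂ) * Complex.I) =
      Complex.exp (t * p.1 * Complex.I) * Complex.exp (((-t : ℝ) : ℂ) * p.2 * Complex.I) := by
    intro p
    rw [← Complex.exp_add]
    congr 1
    push_cast
    ring
  simp_rw [h1]
  rw [integral_prod_mul (fun x : ℝ => Complex.exp (t * x * Complex.I))
    (fun x : ℝ => Complex.exp (((-t : ℝ) : ℂ) * x * Complex.I)), ← charFun_apply_real,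
    ← charFun_apply_real, charFun_neg, Complex.mul_conj, Complex.normSq_eq_norm_sq]

lemma sinc_bound {u w : ℝ} (hw0 : 0 ≤ w) (hw1 : w ≤ 1) (hu : w ≤ |u|) :
    Real.sinc u ≤ 1 - w ^ 2 / 20 := by
  wlog hpos : 0 ≤ u generalizing u
  · have := this (u := -u) (by rwa [abs_neg]) (by linarith)
    rwa [Real.sinc_neg] at this
  rw [abs_of_nonneg hpos] at hu
  rcases hpos.eq_or_lt with h0 | h0
  · rw [← h0] at hu ⊢
    have : w = 0 := le_antisymm hu hw0
    rw [this]; simp
  rcases le_or_gt 2 u with h2 | h2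
  · have h3 := Real.sinc_le_inv_abs h0.ne'
    rw [abs_of_pos h0] at h3
    have h4 : u⁻¹ ≤ 2⁻¹ := inv_anti₀ (by norm_num) h2
    nlinarith
  · rw [Real.sinc_of_ne_zero h0.ne']
    have h5 : Real.sin u = 2 * Real.sin (u / 2) * Real.cos (u / 2) := by
      rw [← Real.sin_two_mul]; congr 1; ring
    have h6 : Real.sin (u / 2) ≤ u / 2 := Real.sin_le (by linarith)
    have h7 : 0 ≤ Real.cos (u / 2) :=
      Real.cos_nonneg_of_neg_pi_div_two_le_of_le (by linarith [Real.pi_gt_three])
        (by linarith [Real.pi_gt_three])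
    have h8 : Real.cos (u / 2) ≤ 1 - 2 / Real.pi ^ 2 * (u / 2) ^ 2 :=
      Real.cos_le_one_sub_mul_cos_sq (by rw [abs_of_pos (by linarith)]; linarith [Real.pi_gt_three])
    have h9 : Real.pi ^ 2 ≤ 10 := by nlinarith [Real.pi_lt_d2, Real.pi_pos]
    have h10 : 1 / 5 ≤ 2 / Real.pi ^ 2 := by
      rw [div_le_div_iff₀ (by norm_num) (by positivity)]; linarith
    rw [div_le_iff₀ h0, h5]
    have h11 : 2 * Real.sin (u / 2) * Real.cos (u / 2) ≤ u * Real.cos (u / 2) := by nlinarith
    refine h11.trans ?_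
    have h12 : Real.cos (u / 2) ≤ 1 - w ^ 2 / 20 := by
      have : 1 / 5 * (u / 2) ^ 2 ≤ 2 / Real.pi ^ 2 * (u / 2) ^ 2 := by gcongr
      nlinarith
    nlinarith

/-- choice of the frequency -/
lemma exists_freq {ζ : Measure ℝ} [IsProbabilityMeasure ζ] {c : ℝ → ℝ}
    (hc : ∀ t, charFun ζ t = (c t : ℂ)) {e p r : ℝ} (he0 : 0 < e) (he1 : e ≤ 1) (hp : 0 < p)
    (hm : p ≤ ζ.real {z | e ≤ |z|}) (hr0 : 0 < r) (hr1 : r ≤ 1) :
    ∃ t : ℝ, |t| ≤ r ∧ c t ≤ 1 - p * e ^ 2 / 40 * r ^ 2 := by
  by_contra hcon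
  push Not at hcon
  have h1 := integral_charFun_Icc (μ := ζ) hr0
  simp_rw [hc] at h1
  rw [intervalIntegral.integral_ofReal] at h1
  have h2 : ∫ t in -r..r, c t = 2 * r * ∫ x, Real.sinc (r * x) ∂ζ := by
    rw [← Complex.ofReal_inj, h1]
    push_cast
    rfl
  have hcint : IntervalIntegrable c volume (-r) r := by
    have h3 : IntervalIntegrable (charFun ζ) volume (-r) r := intervalIntegrable_charFun
    have h4 : c = fun t => (charFun ζ t).re := by
      ext t; rw [hc]; simp
    rw [h4]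
    exact ⟨h3.1.re, h3.2.re⟩
  have h5 : (2 * r) * (1 - p * e ^ 2 / 40 * r ^ 2) ≤ ∫ t in -r..r, c t := by
    have h6 : ∫ _t in -r..r, (1 - p * e ^ 2 / 40 * r ^ 2) = (2 * r) * (1 - p * e ^ 2 / 40 * r ^ 2) := by
      rw [intervalIntegral.integral_const, smul_eq_mul]; ring
    rw [← h6]
    refine intervalIntegral.integral_mono_on (by linarith) (by simp) hcint (fun t ht => ?_)
    exact (hcon t (abs_le.mpr ⟨ht.1, ht.2⟩)).le
  have hint : Integrable (fun x => Real.sinc (r * x)) ζ := by
    refine Integrable.of_bound (C := 1) ?_ ?_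
    · exact (Real.continuous_sinc.comp (by fun_prop)).aestronglyMeasurable
    · exact Eventually.of_forall (fun x => by rw [Real.norm_eq_abs]; exact Real.abs_sinc_le_one _)
  have hmeas : MeasurableSet {z : ℝ | e ≤ |z|} := measurableSet_le measurable_const (by fun_prop)
  have h7 : ∫ x, Real.sinc (r * x) ∂ζ ≤
      ∫ x, (1 - {z : ℝ | e ≤ |z|}.indicator (fun _ => (r * e) ^ 2 / 20) x) ∂ζ := by
    refine integral_mono hint ?_ (fun x => ?_)
    · exact (integrable_const _).sub ((integrable_const _).indicator hmeas)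
    · by_cases hx : x ∈ {z : ℝ | e ≤ |z|}
      · simp only [indicator_of_mem hx]
        refine sinc_bound (by positivity) (by nlinarith) ?_
        rw [abs_mul, abs_of_pos hr0]
        exact mul_le_mul_of_nonneg_left hx hr0.le
      · simp only [indicator_of_notMem hx, sub_zero]
        exact Real.sinc_le_one _
  rw [integral_sub (integrable_const _) ((integrable_const _).indicator hmeas),
    integral_indicator hmeas] at h7
  simp only [integral_const, MeasurableSet.univ, measureReal_restrict_apply, univ_inter,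
    smul_eq_mul, probReal_univ, one_mul] at h7
  have h8 : p * ((r * e) ^ 2 / 20) ≤ ζ.real {z | e ≤ |z|} * ((r * e) ^ 2 / 20) := by gcongr
  have h9 : 0 < p * e ^ 2 * r ^ 2 := by positivity
  have h10 : (2 * r) * (1 - p * e ^ 2 / 40 * r ^ 2) ≤ 2 * r * (1 - p * ((r * e) ^ 2 / 20)) := by
    refine h5.trans ?_
    rw [h2]
    gcongr
    linarith
  have h11 : 1 - p * e ^ 2 / 40 * r ^ 2 ≤ 1 - p * ((r * e) ^ 2 / 20) :=
    le_of_mul_le_mul_left h10 (by positivity)
  nlinarith

/-- tail from the characteristic function -/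
lemma tail_of_charFun {ρ : Measure ℝ} [IsProbabilityMeasure ρ] {t c q R : ℝ}
    (hc : charFun ρ t = (c : ℂ)) (hq : c ≤ 1 - q) (hR : 0 ≤ R) (htR : (t * R) ^ 2 ≤ q) :
    q / 4 ≤ ρ.real {s | R ≤ |s|} := by
  have h1 : ∫ x, Real.cos (t * x) ∂ρ = c := by
    have h2 : ∫ x : ℝ, Complex.exp (t * x * Complex.I) ∂ρ = (c : ℂ) := by
      rw [← hc, charFun_apply_real]
    have hint : Integrable (fun x : ℝ => Complex.exp (t * x * Complex.I)) ρ := by
      refine Integrable.of_bound (C := 1) (by fun_prop) (Eventually.of_forall (fun x => ?_))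
      have : (t : ℂ) * x * Complex.I = ((t * x : ℝ) : ℂ) * Complex.I := by push_cast; ring
      rw [this, Complex.norm_exp_ofReal_mul_I]
    have h3 : ∀ x : ℝ, Real.cos (t * x) = (Complex.exp (t * x * Complex.I)).re := by
      intro x
      have : (t : ℂ) * x * Complex.I = ((t * x : ℝ) : ℂ) * Complex.I := by push_cast; ring
      rw [this, Complex.exp_ofReal_mul_I_re]
    simp_rw [h3]
    have h4 := integral_re hint
    simp only [RCLike.re_to_complex] at h4
    rw [h4, h2]
    simp
  have hmeas : MeasurableSet {z : ℝ | R ≤ |z|} := measurableSet_le measurable_const (by fun_prop)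
  have hci : Integrable (fun x : ℝ => Real.cos (t * x)) ρ := by
    refine Integrable.of_bound (C := 1) (by fun_prop) (Eventually.of_forall (fun x => ?_))
    rw [Real.norm_eq_abs]; exact Real.abs_cos_le_one _
  have h5 : ∫ x, (1 - Real.cos (t * x)) ∂ρ ≤
      ∫ x, (q / 2 + {z : ℝ | R ≤ |z|}.indicator (fun _ => (2 : ℝ)) x) ∂ρ := by
    refine integral_mono ((integrable_const _).sub hci) ?_ (fun x => ?_)
    · exact (integrable_const _).add ((integrable_const _).indicator hmeas)
    · have hq0 : 0 ≤ q := le_trans (sq_nonneg _) htR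
      by_cases hx : x ∈ {z : ℝ | R ≤ |z|}
      · simp only [indicator_of_mem hx]
        linarith [Real.neg_one_le_cos (t * x)]
      · simp only [indicator_of_notMem hx, add_zero]
        have h6 := Real.one_sub_sq_div_two_le_cos (x := t * x)
        simp only [mem_ofPred_eq, not_le] at hx
        have h7 : (t * x) ^ 2 ≤ (t * R) ^ 2 := by
          rw [mul_pow, mul_pow]
          gcongr ?_ * ?_
          · exact sq_le_sq' (by linarith [neg_abs_le x]) (by linarith [le_abs_self x])
        linarith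
  rw [integral_sub (integrable_const _) hci, integral_add (integrable_const _)
    ((integrable_const _).indicator hmeas), integral_indicator hmeas, h1] at h5
  simp only [integral_const, MeasurableSet.univ, measureReal_restrict_apply, univ_inter,
    smul_eq_mul, probReal_univ, one_mul] at h5
  linarith

lemma exists_diff (Pv : Measure ℝ) (hG : GoodLaw Pv) : ∃ η p : ℝ, 0 < η ∧ 0 < p ∧
    p ≤ (Pv.prod Pv).real {x : ℝ × ℝ | η ≤ |x.1 - x.2|} := by
  obtain ⟨hP, -, hG⟩ := hG
  by_contra hcon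
  push Not at hcon
  have h0 : ∀ k : ℕ, (Pv.prod Pv) {x : ℝ × ℝ | 1 / ((k : ℝ) + 1) ≤ |x.1 - x.2|} = 0 := by
    intro k
    by_contra hk
    have hk' : 0 < (Pv.prod Pv).real {x : ℝ × ℝ | 1 / ((k : ℝ) + 1) ≤ |x.1 - x.2|} := by
      rw [measureReal_def]
      exact ENNReal.toReal_pos hk (measure_ne_top _ _)
    have := hcon (1 / ((k : ℝ) + 1)) _ (by positivity) hk'
    exact lt_irrefl _ this
  have h1 : (Pv.prod Pv) {x : ℝ × ℝ | x.1 ≠ x.2} = 0 := by
    refine measure_mono_null ?_ (measure_iUnion_null h0)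
    intro x hx
    have hx' : 0 < |x.1 - x.2| := abs_pos.mpr (sub_ne_zero.mpr hx)
    obtain ⟨k, hk⟩ := exists_nat_one_div_lt hx'
    exact mem_iUnion.mpr ⟨k, hk.le⟩
  have hms : MeasurableSet {x : ℝ × ℝ | x.1 ≠ x.2} :=
    (measurableSet_eq_fun measurable_fst measurable_snd).compl
  rw [Measure.measure_prod_null hms] at h1
  obtain ⟨x, hx⟩ := h1.exists
  have h2 : Pv {x}ᶜ = 0 := by
    refine measure_mono_null ?_ hx
    intro y hy
    simp only [mem_compl_iff, mem_singleton_iff] at hy
    simp only [mem_preimage, mem_ofPred_eq, ne_eq]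
    exact fun h => hy h.symm
  have h3 : Pv {x} = 1 := (prob_compl_eq_zero_iff (measurableSet_singleton x)).mp h2
  exact absurd (hG x) (by rw [h3]; exact lt_irrefl _)

lemma inv_diff {B lam E η v w : ℝ} (hB : 0 < B) (hl : 0 < lam) (hη : 0 < η)
    (hv : |E - lam * v| ≤ B) (hw : |E - lam * w| ≤ B) (h : η ≤ |v - w|) :
    min (lam * η / B ^ 2) (1 / B) ≤ |(E - lam * v)⁻¹ - (E - lam * w)⁻¹| := by
  have key : ∀ d : ℝ, |d| ≤ B → d ≠ 0 → 1 / B ≤ |d⁻¹| := by
    intro d hd h0
    rw [abs_inv, one_div]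
    exact inv_anti₀ (abs_pos.mpr h0) hd
  rcases eq_or_ne (E - lam * v) 0 with hv0 | hv0
  · rcases eq_or_ne (E - lam * w) 0 with hw0 | hw0
    · exfalso
      have h1 : lam * (v - w) = 0 := by linarith
      rcases mul_eq_zero.mp h1 with h2 | h2
      · linarith
      · rw [h2, abs_zero] at h; linarith
    · rw [hv0, inv_zero, zero_sub, abs_neg]
      exact (min_le_right _ _).trans (key _ hw hw0)
  · rcases eq_or_ne (E - lam * w) 0 with hw0 | hw0
    · rw [hw0, inv_zero, sub_zero]
      exact (min_le_right _ _).trans (key _ hv hv0)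
    · refine (min_le_left _ _).trans ?_
      have h1 : (E - lam * v)⁻¹ - (E - lam * w)⁻¹ =
          (lam * (v - w)) * ((E - lam * v)⁻¹ * (E - lam * w)⁻¹) := by
        field_simp
        ring
      rw [h1, abs_mul, abs_mul, abs_mul, abs_of_pos hl]
      have h2 := key _ hv hv0
      have h3 := key _ hw hw0
      calc lam * η / B ^ 2 = (lam * η) * ((1 / B) * (1 / B)) := by field_simp
        _ ≤ (lam * |v - w|) * (|(E - lam * v)⁻¹| * |(E - lam * w)⁻¹|) := by gcongr

theorem t9a : T9a := by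
  intro Pv hG lam a b hlam
  obtain ⟨η, p, hη, hp, hpm⟩ := exists_diff Pv hG
  obtain ⟨hP, hsupp, hatom⟩ := hG
  set B : ℝ := max |a| |b| + lam with hB
  have hBpos : 0 < B := by
    have : 0 ≤ max |a| |b| := le_trans (abs_nonneg a) (le_max_left _ _)
    linarith
  set e : ℝ := min 1 (min (lam * η / B ^ 2) (1 / B)) with he
  have he0 : 0 < e := by positivity
  have he1 : e ≤ 1 := min_le_left _ _
  set κ : ℝ := p * e ^ 2 / 40 with hκ
  have hκ0 : 0 < κ := by positivity
  have hp1 : p ≤ 1 := hpm.trans (by exact measureReal_le_one)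
  have hκ1 : κ ≤ 1 := by
    rw [hκ]
    have : e ^ 2 ≤ 1 := by nlinarith
    nlinarith [mul_le_mul hp1 this (by positivity) (by norm_num)]
  set q : ℝ := 1 - Real.exp (-κ) with hq
  have hq0 : 0 < q := by
    have : Real.exp (-κ) < 1 := by rw [Real.exp_lt_one_iff]; linarith
    linarith
  refine ⟨√q, q / 4, by positivity, by positivity, ?_⟩
  intro s hs n E hE
  set m : ℕ := s n with hm
  have hm0 : 0 < m := hs n
  have hm1 : (1 : ℝ) ≤ m := by exact_mod_cast hm0
  have hmpos : (0 : ℝ) < m := by linarith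
  set g : ℝ → ℝ := fun x => (E - lam * x)⁻¹ with hg
  have hgm : Measurable g := by fun_prop
  set μX : Measure ℝ := Pv.map g with hμX
  haveI : IsProbabilityMeasure μX := Measure.isProbabilityMeasure_map hgm.aemeasurable
  -- the sum
  set T : Om s → ℝ := fun v => ∑ i : Fin (s n), g (v ⟨n, i⟩) with hT
  have hTm : Measurable T := by fun_prop
  set μT : Measure ℝ := (PP s Pv).map T with hμT
  haveI : IsProbabilityMeasure μT := Measure.isProbabilityMeasure_map hTm.aemeasurable
  have hcfT : ∀ t, charFun μT t = (charFun μX t) ^ m := by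
    intro t
    have hind : iIndepFun (fun (x : Vtx s) (ω : Om s) => g (ω x)) (PP s Pv) :=
      iIndepFun_infinitePi (X := fun _ : Vtx s => g) (fun _ => hgm)
    have hind2 : iIndepFun (fun (i : Fin (s n)) (ω : Om s) => g (ω ⟨n, i⟩)) (PP s Pv) := by
      refine hind.precomp (g := fun i : Fin (s n) => (⟨n, i⟩ : Vtx s)) ?_
      intro i j hij
      simpa using hij
    have h1 := hind2.charFun_map_fun_sum_eq_prod
      (fun i => (by fun_prop : Measurable (fun ω : Om s => g (ω ⟨n, i⟩))).aemeasurable)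
    rw [hμT, hT, h1, Finset.prod_apply]
    have h2 : ∀ i : Fin (s n), charFun ((PP s Pv).map (fun ω : Om s => g (ω ⟨n, i⟩))) t =
        charFun μX t := by
      intro i
      have h3 : (PP s Pv).map (fun ω : Om s => g (ω ⟨n, i⟩)) = μX := by
        have h4 : (PP s Pv).map (fun ω : Om s => ω ⟨n, i⟩) = Pv := by
          unfold PP
          exact Measure.infinitePi_map_eval (fun _ : Vtx s => Pv) ⟨n, i⟩
        rw [hμX, ← h4, Measure.map_map hgm (by fun_prop)]
        rw [h4]
        rfl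
      rw [h3]
    simp [h2, hm]
  -- lower bound for the difference of two summands
  have hζ : p ≤ (Dl μX).real {z | e ≤ |z|} := by
    have hmeas : MeasurableSet {z : ℝ | e ≤ |z|} := measurableSet_le measurable_const (by fun_prop)
    have h1 : Dl μX = (Pv.prod Pv).map (fun x => g x.1 - g x.2) := by
      unfold Dl
      rw [hμX, Measure.map_prod_map Pv Pv hgm hgm, Measure.map_map (by fun_prop) (by fun_prop)]
      rfl
    rw [h1, map_measureReal_apply (by fun_prop) hmeas]
    refine hpm.trans ?_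
    have hae : ∀ᵐ x ∂(Pv.prod Pv), x.1 ∈ Icc (-1 : ℝ) 1 ∧ x.2 ∈ Icc (-1 : ℝ) 1 := by
      have h2 : ∀ᵐ x ∂Pv, x ∈ Icc (-1 : ℝ) 1 := by
        rw [ae_iff]; exact hsupp
      have h3 : ∀ᵐ x ∂(Pv.prod Pv), x.1 ∈ Icc (-1 : ℝ) 1 :=
        Measure.quasiMeasurePreserving_fst.ae h2
      have h4 : ∀ᵐ x ∂(Pv.prod Pv), x.2 ∈ Icc (-1 : ℝ) 1 :=
        Measure.quasiMeasurePreserving_snd.ae h2
      filter_upwards [h3, h4] with x h5 h6 using ⟨h5, h6⟩
    rw [measureReal_def, measureReal_def]
    refine ENNReal.toReal_mono (measure_ne_top _ _) (measure_mono_ae ?_)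
    filter_upwards [hae] with x hx hxη
    have hbd : ∀ y ∈ Icc (-1 : ℝ) 1, |E - lam * y| ≤ B := by
      intro y hy
      have h5 : |E| ≤ max |a| |b| := abs_le_max_abs_abs hE.1 hE.2
      have h6 : |lam * y| ≤ lam := by
        rw [abs_mul, abs_of_pos hlam]
        have : |y| ≤ 1 := abs_le.mpr hy
        nlinarith
      calc |E - lam * y| ≤ |E| + |lam * y| := abs_sub _ _
        _ ≤ B := by rw [hB]; linarith
    exact (min_le_right _ _).trans (inv_diff hBpos hlam hη (hbd _ hx.1) (hbd _ hx.2) hxη)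
  have hr1 : 1 / √(m : ℝ) ≤ 1 := by
    rw [div_le_one (by positivity)]
    exact Real.one_le_sqrt.mpr hm1
  obtain ⟨t, ht, hct⟩ := exists_freq (charFun_Dl μX) he0 he1 hp hζ
    (by positivity : 0 < 1 / √(m : ℝ)) hr1
  have hsq : (1 / √(m : ℝ)) ^ 2 = 1 / m := by
    rw [div_pow, Real.sq_sqrt hmpos.le, one_pow]
  rw [hsq] at hct
  -- the difference of the sums
  have hfin : q / 4 ≤ (Dl μT).real {z | √q * √(m : ℝ) ≤ |z|} := by
    refine tail_of_charFun (t := t) (charFun_Dl μT t) ?_ (by positivity) ?_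
    · rw [hcfT, norm_pow, ← pow_mul, mul_comm, pow_mul]
      have h1 : ‖charFun μX t‖ ^ 2 ≤ Real.exp (-κ / m) := by
        refine hct.trans ?_
        have := Real.add_one_le_exp (-κ / m)
        have h2 : 1 - p * e ^ 2 / 40 * (1 / m) = -κ / m + 1 := by rw [hκ]; ring
        rw [h2]
        exact this
      calc (‖charFun μX t‖ ^ 2) ^ m ≤ (Real.exp (-κ / m)) ^ m := by gcongr
        _ = Real.exp (-κ) := by
          rw [← Real.exp_nat_mul]
          congr 1
          field_simp
        _ = 1 - q := by rw [hq]; ring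
    · have h1 : (t * (√q * √(m : ℝ))) ^ 2 = q * (t ^ 2 * m) := by
        rw [mul_pow, mul_pow, Real.sq_sqrt hq0.le, Real.sq_sqrt hmpos.le]; ring
      rw [h1]
      have h2 : t ^ 2 ≤ 1 / m := by
        rw [← hsq, ← sq_abs t]
        gcongr
      have h3 : t ^ 2 * m ≤ 1 := by
        calc t ^ 2 * m ≤ 1 / m * m := by gcongr
          _ = 1 := by field_simp
      nlinarith
  have hmeas : MeasurableSet {z : ℝ | √q * √(m : ℝ) ≤ |z|} :=
    measurableSet_le measurable_const (by fun_prop)
  have h1 : Dl μT = ((PP s Pv).prod (PP s Pv)).map (fun x => T x.1 - T x.2) := by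
    unfold Dl
    rw [hμT, Measure.map_prod_map (PP s Pv) (PP s Pv) hTm hTm,
      Measure.map_map (by fun_prop) (by fun_prop)]
    rfl
  rw [h1, map_measureReal_apply (by fun_prop) hmeas, measureReal_def] at hfin
  rw [← ENNReal.ofReal_toReal (measure_ne_top ((PP s Pv).prod (PP s Pv)) _)]
  refine ENNReal.ofReal_le_ofReal (hfin.trans ?_)
  refine ENNReal.toReal_mono (measure_ne_top _ _) (measure_mono ?_)
  intro x hx
  simp only [mem_preimage, mem_ofPred_eq] at hx ⊢
  have hY : YY s lam x.1 n E - YY s lam x.2 n E = (T x.1 - T x.2) / m := by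
    simp only [YY, hT, hg]
    rw [sub_div]
  rw [hY, abs_div, abs_of_pos hmpos, div_le_div_iff₀ (by positivity) hmpos]
  have h5 : (m : ℝ) = √(m : ℝ) * √(m : ℝ) := (Real.mul_self_sqrt hmpos.le).symm
  calc √q * (m : ℝ) = (√q * √(m : ℝ)) * √(m : ℝ) := by nth_rewrite 1 [h5]; ring
    _ ≤ |T x.1 - T x.2| * √(m : ℝ) := by gcongr

end Pool.Agent.H941R3.AT
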